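import Pool.Agent.H8.DI.Targets

/-!
# Chunks
-/

set_option autoImplicit false

namespace Pool.Agent.H8.DI

open Pool.Agent.H16.TO Pool.Agent.H8.PL

section
variable {V Q : Type} [Finite V] {U : Bool → Bool → Bool → Bool → Q → Prop}
  {Hh Vv : Q → Q → Prop} {st : V → El Q} {E lt M S N N' : V → V → Prop}

/-- the number of the heads up to `x` -/
noncomputable def chn (st : V → El Q) (lt : V → V → Prop) (x : V) : ℕ :=
  {h | head (st h) ∧ (h = x ∨ lt h x)}.ncard

theorem ch_mono (o : OrdAx Hh Vv st E lt S N N') (x y : V) (h : lt x y) :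
    chn st lt x ≤ chn st lt y := by
  haveI := o.tot
  refine Set.ncard_le_ncard ?_ (Set.toFinite _)
  rintro z ⟨h1, h2⟩
  refine ⟨h1, Or.inr ?_⟩
  rcases h2 with rfl | h2
  · exact h
  · exact _root_.trans h2 h

theorem ch_lt (o : OrdAx Hh Vv st E lt S N N') (x y : V) (h : lt x y) (hy : head (st y)) :
    chn st lt x < chn st lt y := by
  haveI := o.tot
  refine Set.ncard_lt_ncard ?_ (Set.toFinite _)
  refine ⟨?_, ?_⟩
  · rintro z ⟨h1, h2⟩
    refine ⟨h1, Or.inr ?_⟩
    rcases h2 with rfl | h2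
    · exact h
    · exact _root_.trans h2 h
  · intro h3
    have h4 : y ∈ {h | head (st h) ∧ (h = x ∨ lt h x)} := h3 ⟨hy, Or.inl rfl⟩
    rcases h4.2 with h5 | h5
    · subst h5; exact irrefl _ h
    · exact asymm h h5

theorem ch_suc (o : OrdAx Hh Vv st E lt S N N') (w x : V) (h : S w x) (hx : ¬ head (st x)) :
    chn st lt w = chn st lt x := by
  haveI := o.tot
  have hs := (o.suc w x).mp h
  unfold chn
  congr 1
  ext z
  constructor
  · rintro ⟨h1, h2⟩
    refine ⟨h1, Or.inr ?_⟩
    rcases h2 with rfl | h2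
    · exact hs.1
    · exact _root_.trans h2 hs.1
  · rintro ⟨h1, h2⟩
    refine ⟨h1, ?_⟩
    rcases h2 with rfl | h2
    · exact absurd h1 hx
    · rcases trichotomous_of lt z w with h3 | h3 | h3
      · exact Or.inr h3
      · exact Or.inl h3
      · exact absurd ⟨h3, h2⟩ (hs.2 z)

theorem ch_wf (o : OrdAx Hh Vv st E lt S N N') : WellFounded lt := by
  haveI := o.tot
  exact Finite.wellFounded_of_trans_of_irrefl lt

theorem ch_wf' (o : OrdAx Hh Vv st E lt S N N') : WellFounded (fun a b => lt b a) := by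
  haveI := o.tot
  haveI : IsTrans V (fun a b => lt b a) := ⟨fun a b c h1 h2 => _root_.trans h2 h1⟩
  haveI : Std.Irrefl (fun a b : V => lt b a) := ⟨fun a h => irrefl _ h⟩
  exact Finite.wellFounded_of_trans_of_irrefl _

theorem ch_up (a : CellAx U st E M) (o : OrdAx Hh Vv st E lt S N N') : ∀ x w : V,
    (w = x ∨ lt w x) → chn st lt w = chn st lt x →
      (st w).k ≤ (st x).k ∧ ((st w).k = (st x).k → E w x) := by
  haveI := o.tot
  intro x
  induction x using (ch_wf o).induction with
  | _ x ih =>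
    intro w hw hc
    rcases hw with rfl | hw
    · exact ⟨le_rfl, fun _ => a.eqv.refl _⟩
    · have hx : ¬ head (st x) := fun hx => absurd hc (ch_lt o w x hw hx).ne
      have hp : ∃ u, S u x := by
        by_contra hn
        push Not at hn
        exact hx (o.bot x hn)
      obtain ⟨u, hu⟩ := hp
      have hs := (o.suc u x).mp hu
      have h1 : w = u ∨ lt w u := by
        rcases trichotomous_of lt w u with h3 | h3 | h3
        · exact Or.inr h3
        · exact Or.inl h3
        · exact absurd ⟨h3, hw⟩ (hs.2 w)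
      have h2 := ch_suc o u x hu hx
      obtain ⟨h4, h5⟩ := ih u hs.1 w h1 (hc.trans h2.symm)
      obtain ⟨h6, h7, -⟩ := o.sn u x hu hx
      refine ⟨h4.trans h6, fun h => ?_⟩
      have h8 : (st w).k = (st u).k := le_antisymm h4 (h ▸ h6)
      exact a.eqv.trans (h5 h8) (h7 (h8 ▸ h)).1

theorem ch_fst (a : CellAx U st E M) (o : OrdAx Hh Vv st E lt S N N') : ∀ x : V,
    ∃ b, chn st lt b = chn st lt x ∧ (st b).k = (st x).k ∧ E b x ∧ fst (st b) := by
  intro x
  induction x using (ch_wf o).induction with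
  | _ x ih =>
    by_cases hx : head (st x)
    · exact ⟨x, rfl, rfl, a.eqv.refl _, hx.2⟩
    · have hp : ∃ u, S u x := by
        by_contra hn
        push Not at hn
        exact hx (o.bot x hn)
      obtain ⟨u, hu⟩ := hp
      have hs := (o.suc u x).mp hu
      obtain ⟨-, h7, h8⟩ := o.sn u x hu hx
      by_cases hk : (st u).k = (st x).k
      · obtain ⟨b, h1, h2, h3, h4⟩ := ih u hs.1
        exact ⟨b, h1.trans (ch_suc o u x hu hx), h2.trans hk, a.eqv.trans h3 (h7 hk).1, h4⟩
      · exact ⟨x, rfl, rfl, a.eqv.refl _, h8 hk⟩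

theorem ch_hd (o : OrdAx Hh Vv st E lt S N N') : ∀ x : V,
    ∃ b, chn st lt b = chn st lt x ∧ (st b).k = 0 ∧ fst (st b) := by
  intro x
  induction x using (ch_wf o).induction with
  | _ x ih =>
    by_cases hx : head (st x)
    · exact ⟨x, rfl, hx.1, hx.2⟩
    · have hp : ∃ u, S u x := by
        by_contra hn
        push Not at hn
        exact hx (o.bot x hn)
      obtain ⟨u, hu⟩ := hp
      obtain ⟨b, h1, h2⟩ := ih u ((o.suc u x).mp hu).1
      exact ⟨b, h1.trans (ch_suc o u x hu hx), h2⟩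

theorem ch_tl (o : OrdAx Hh Vv st E lt S N N') : ∀ x : V,
    ∃ b, chn st lt b = chn st lt x ∧ (st b).k = 3 := by
  intro x
  induction x using (ch_wf' o).induction with
  | _ x ih =>
    by_cases hn : ∀ y, ¬ S x y
    · exact ⟨x, rfl, o.top x hn⟩
    · push Not at hn
      obtain ⟨y, hy⟩ := hn
      by_cases hh : head (st y)
      · exact ⟨x, rfl, o.sh x y hy hh⟩
      · obtain ⟨b, h1, h2⟩ := ih y ((o.suc x y).mp hy).1
        exact ⟨b, h1.trans (ch_suc o x y hy hh).symm, h2⟩

end

theorem pf_ch : K_CH := by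
  intro V Q _ U Hh Vv st E lt M S N N' a o
  haveI := o.tot
  refine ⟨chn st lt, ch_mono o, ?_, ?_⟩
  · intro x y hk
    constructor
    · intro h
      obtain ⟨b, h1, h2, h3, h4⟩ := ch_fst a o x
      obtain ⟨b', h1', h2', h3', h4'⟩ := ch_fst a o y
      have h5 : E b b' := a.eqv.trans (a.eqv.trans h3 h) (a.eqv.symm h3')
      have h6 := o.uni b b' h5 (h2.trans (hk.trans h2'.symm)) h4 h4'
      rw [← h1, ← h1', h6]
    · intro h
      rcases trichotomous_of lt x y with h3 | h3 | h3
      · exact (ch_up a o y x (Or.inr h3) h).2 hk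
      · subst h3; exact a.eqv.refl _
      · exact a.eqv.symm ((ch_up a o x y (Or.inr h3) h.symm).2 hk.symm)
  · rintro x j (rfl | rfl)
    · exact ch_hd o x
    · obtain ⟨b, h1, h2⟩ := ch_tl o x
      obtain ⟨b', h1', h2', -, h4'⟩ := ch_fst a o b
      exact ⟨b', h1'.trans h1, h2'.trans h2, h4'⟩

end Pool.Agent.H8.DI
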