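import Pool.Agent.H8.DI.Targets
import Pool.Agent.H84.TW.PB

/-!
# Pull-back of spectra
-/

set_option autoImplicit false

namespace Pool.Agent.H8.DI

open Pool.Agent.H69.Sp Pool.Agent.H69.Mt Pool.Agent.H16.TO
open Pool.Agent.H84.TW

theorem pol_eq (N a : ℕ) (hN : 1 ≤ N) :
    a = pol N ↔ ∃ d, d + N = N * N ∧ a = 4 * (N * N * N) + d := by
  unfold pol
  have h1 : N ≤ N * N := Nat.le_mul_of_pos_left N hN
  have h2 : 4 * N ^ 3 + N ^ 2 - N = 4 * (N * N * N) + (N * N - N) := by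
    have e1 : N ^ 3 = N * N * N := by ring
    have e2 : N ^ 2 = N * N := by ring
    rw [e1, e2]
    omega
  rw [h2]
  constructor
  · intro h
    exact ⟨N * N - N, by omega, h⟩
  · rintro ⟨d, h3, h4⟩
    have : d = N * N - N := by omega
    rw [h4, this]

theorem fd_pol (r : ℕ) : FD (fun _ _ v => 1 ≤ v 1 ∧ v 2 = pol (v 1 ^ r)) := by
  refine (FD.ex 3 (FD.ex 4 (FD.ex 5 (FD.ex 6 (FD.ex 7 (FD.ex 8 ((fd_pow r 1 3).and
    ((FD.mul 3 3 4).and ((FD.mul 4 3 5).and ((FD.num 4 6).and ((FD.mul 6 5 7).and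
      ((FD.add 8 3 4).and (FD.add 7 8 2))))))))))))).congr fun N E v hv => ?_
  simp only [Function.update_self, Function.update_of_ne, ne_eq, not_false_eq_true,
    OfNat.one_ne_ofNat, Nat.reduceEqDiff]
  constructor
  · rintro ⟨t, _, s, _, u, _, w, _, x, _, d, _, ⟨h1, h2⟩, h3, h4, h5, h6, h7, h8⟩
    refine ⟨h1, ?_⟩
    rw [pol_eq _ _ (Nat.one_le_pow _ _ h1), ← h2]
    refine ⟨d, by rw [h7, h3], ?_⟩
    rw [← h8, ← h6, h5, ← h4, ← h3]
  · rintro ⟨h1, h2⟩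
    have h3 : 1 ≤ v 1 ^ r := Nat.one_le_pow _ _ h1
    obtain ⟨d, h4, h5⟩ := (pol_eq _ _ h3).mp h2
    have h6 := hv 2
    set t := v 1 ^ r with ht
    have h7 : t * t ≤ t * t * t := Nat.le_mul_of_pos_right _ h3
    have h8 : t ≤ t * t := Nat.le_mul_of_pos_left t h3
    exact ⟨t, by omega, t * t, by omega, t * t * t, by omega, 4, by omega, 4 * (t * t * t),
      by omega, d, by omega, ⟨h1, rfl⟩, rfl, rfl, rfl, rfl, h4, h5.symm⟩

theorem pol_lt (N : ℕ) (hN : 2 ≤ N) : pol N < N ^ 8 := by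
  have h1 : pol N ≤ 5 * N ^ 3 := by
    unfold pol
    have : N ^ 2 ≤ N ^ 3 := Nat.pow_le_pow_right (by omega) (by norm_num)
    omega
  have h2 : 5 < N ^ 5 := lt_of_lt_of_le (by norm_num) (Nat.pow_le_pow_left hN 5)
  calc pol N ≤ 5 * N ^ 3 := h1
    _ < N ^ 5 * N ^ 3 := Nat.mul_lt_mul_of_pos_right h2 (by positivity)
    _ = N ^ 8 := by rw [← pow_add]

theorem pf_pb : K_PB := by
  intro X hX r hr
  refine wrapT (P := fun N _ m => ∃ y, y < N ∧ ((1 ≤ m ∧ y = pol (m ^ r)) ∧ y ∈ X)) ?_ ?_ r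
    fun m hm => ?_
  · refine (ED.ex 2 ((fd_pol r).ed.and (mem_ed hX 2))).congr fun N E v hv => ?_
    simp only [Function.update_self, Function.update_of_ne, ne_eq, not_false_eq_true,
      OfNat.one_ne_ofNat]
  · rintro ⟨h, _⟩
    omega
  · have hlt : pol (m ^ r) < (m ^ 2 ^ r) ^ 8 := by
      have h1 : 2 ≤ m ^ r := hm.trans (Nat.le_self_pow (by omega) m)
      have h2 : m ^ r ≤ m ^ 2 ^ r :=
        Nat.pow_le_pow_right (by omega) (Nat.lt_two_pow_self (n := r)).le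
      exact (pol_lt _ h1).trans_le (Nat.pow_le_pow_left h2 8)
    constructor
    · rintro ⟨_, h2⟩
      exact ⟨fun _ _ => False, _, hlt, ⟨by omega, rfl⟩, h2⟩
    · rintro ⟨_, y, _, ⟨_, rfl⟩, h2⟩
      exact ⟨by omega, h2⟩

end Pool.Agent.H8.DI
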