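import Pool.Agent.H8.DI.Targets
import Pool.Agent.H3.TW.BR
import Pool.Agent.H47.TW.S1
import Pool.Agent.H58.TW.FA
import Pool.Agent.H50.TW.SF

/-!
# The spectra with special relations are spectra
-/

set_option autoImplicit false

namespace Pool.Agent.H8.DI

open Pool.Agent.H16.TO Pool.Agent.H69.Sp Pool.Agent.H69.Mt

/-- relations of the kind `κ` on `{0, …, n - 1}` -/
def KOn (n : ℕ) (κ : Kd) (r : ℕ → ℕ → Prop) : Prop :=
  match κ with
  | .ord => STOn n r
  | .tree => (∀ a < n, ¬ r a a) ∧ (∀ a < n, ∀ b < n, ∀ c < n, r a b → r b c → r a c) ∧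
      ∀ a < n, ∀ b < n, ∀ c < n, r a c → r b c → a = b ∨ r a b ∨ r b a
  | .eqv => (∀ a < n, r a a) ∧ (∀ a < n, ∀ b < n, r a b → r b a) ∧
      ∀ a < n, ∀ b < n, ∀ c < n, r a b → r b c → r a c

theorem kon_iff {n : ℕ} (κ : Kd) (r : ℕ → ℕ → Prop) :
    IsK κ (fun a b : Fin n => r a.val b.val) ↔ KOn n κ r := by
  cases κ with
  | ord => exact H3.TW.br_ord r
  | tree =>
    constructor
    · rintro ⟨h1, h2, h3⟩
      refine ⟨fun a ha => h1 ⟨a, ha⟩, fun a ha b hb c hc => h2 ⟨a, ha⟩ ⟨b, hb⟩ ⟨c, hc⟩,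
        fun a ha b hb c hc g1 g2 => ?_⟩
      rcases h3 ⟨a, ha⟩ ⟨b, hb⟩ ⟨c, hc⟩ g1 g2 with h | h
      · exact Or.inl (congrArg Fin.val h)
      · exact Or.inr h
    · rintro ⟨h1, h2, h3⟩
      refine ⟨fun a => h1 a.1 a.2, fun a b c => h2 a.1 a.2 b.1 b.2 c.1 c.2, fun a b c g1 g2 => ?_⟩
      rcases h3 a.1 a.2 b.1 b.2 c.1 c.2 g1 g2 with h | h
      · exact Or.inl (Fin.ext h)
      · exact Or.inr h
  | eqv =>
    constructor
    · rintro ⟨h1, h2, h3⟩
      exact ⟨fun a ha => h1 ⟨a, ha⟩, fun a ha b hb h => h2 (x := ⟨a, ha⟩) (y := ⟨b, hb⟩) h,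
        fun a ha b hb c hc h h' => h3 (x := ⟨a, ha⟩) (y := ⟨b, hb⟩) (z := ⟨c, hc⟩) h h'⟩
    · rintro ⟨h1, h2, h3⟩
      exact ⟨fun a => h1 a.1 a.2, fun {a b} h => h2 a.1 a.2 b.1 b.2 h,
        fun {a b c} h h' => h3 a.1 a.2 b.1 b.2 c.1 c.2 h h'⟩

theorem fd_kon (κ : Kd) (i : ℕ) : FD (fun N E _ => KOn N κ (fun a b => E i [a, b])) := by
  have tr : FD (fun N E v => ∀ a, a < N → ∀ b, b < N → ∀ c, c < N →
      (E i [a, b] → E i [b, c] → E i [a, c])) :=
    (FD.all 0 (FD.all 1 (FD.all 2 ((FD.par i [0, 1]).imp ((FD.par i [1, 2]).imp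
      (FD.par i [0, 2])))))).congr fun N E v _ => by
        simp [Function.update_of_ne, Function.update_self]
  cases κ with
  | ord => exact H47.TW.fd_sto i
  | tree =>
    have h1 : FD (fun N E v => ∀ a, a < N → ¬ E i [a, a]) :=
      (FD.all 0 (FD.par i [0, 0]).not).congr fun N E v _ => by simp
    have h3 : FD (fun N E v => ∀ a, a < N → ∀ b, b < N → ∀ c, c < N →
        (E i [a, c] → E i [b, c] → (a = b ∨ (E i [a, b] ∨ E i [b, a])))) :=
      (FD.all 0 (FD.all 1 (FD.all 2 ((FD.par i [0, 2]).imp ((FD.par i [1, 2]).imp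
        ((FD.eq 0 1).or ((FD.par i [0, 1]).or (FD.par i [1, 0])))))))).congr fun N E v _ => by
          simp [Function.update_of_ne, Function.update_self]
    exact (h1.and (tr.and h3)).congr fun N E v _ => Iff.rfl
  | eqv =>
    have h1 : FD (fun N E v => ∀ a, a < N → E i [a, a]) :=
      (FD.all 0 (FD.par i [0, 0])).congr fun N E v _ => by simp
    have h2 : FD (fun N E v => ∀ a, a < N → ∀ b, b < N → (E i [a, b] → E i [b, a])) :=
      (FD.all 0 (FD.all 1 ((FD.par i [0, 1]).imp (FD.par i [1, 0])))).congr fun N E v _ => by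
        simp [Function.update_of_ne, Function.update_self]
    exact (h1.and (h2.and tr)).congr fun N E v _ => Iff.rfl

theorem br_k (l : ℕ) (τ : ℕ → Kd) (φ : C2) (n : ℕ) : n ∈ specK l τ φ ↔ 0 < n ∧
    ∃ (P : ℕ → ℕ → Prop) (R : ℕ → ℕ → ℕ → Prop), (∀ j < l, KOn n (τ j) (R j)) ∧
      ∀ s : Bool → ℕ, (∀ w, s w < n) → φ.SatN n P R s := by
  refine and_congr_right fun hn => ?_
  constructor
  · rintro ⟨P, R, hR, hs⟩
    set P' : ℕ → ℕ → Prop := fun i a => ∃ h : a < n, P i ⟨a, h⟩ with hP'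
    set R' : ℕ → ℕ → ℕ → Prop := fun i a b => ∃ (h : a < n) (h' : b < n), R i ⟨a, h⟩ ⟨b, h'⟩
      with hR'
    have e1 : P = fun i (a : Fin n) => P' i a.val := by
      funext i a
      simp only [hP', eq_iff_iff]
      exact ⟨fun h => ⟨a.2, h⟩, fun ⟨_, h⟩ => h⟩
    have e2 : R = fun i (a b : Fin n) => R' i a.val b.val := by
      funext i a b
      simp only [hR', eq_iff_iff]
      exact ⟨fun h => ⟨a.2, b.2, h⟩, fun ⟨_, _, h⟩ => h⟩
    refine ⟨P', R', ?_, ?_⟩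
    · intro j hj
      rw [← kon_iff]
      have := hR j hj
      rw [e2] at this
      exact this
    · intro s hw
      have h1 := hs (fun w => ⟨s w, hw w⟩)
      rw [e1, e2] at h1
      exact (H3.TW.br_sat P' R' φ _).mp h1
  · rintro ⟨P, R, hR, hs⟩
    refine ⟨fun i a => P i a.val, fun i a b => R i a.val b.val, ?_, ?_⟩
    · intro j hj
      exact (kon_iff (τ j) (R j)).mpr (hR j hj)
    · intro s
      exact (H3.TW.br_sat P R φ s).mpr (hs _ fun w => (s w).2)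

theorem pf_sk : K_SK := by
  intro l τ φ
  have h1 : FD (fun N E v => ∀ j : Fin l, KOn N (τ j) (fun a b => E (2 * j.1 + 1) [a, b])) :=
    (H58.TW.pf_fi (Fin l) (fun j N E _ => KOn N (τ j) (fun a b => E (2 * j.1 + 1) [a, b]))
      fun j => fd_kon (τ j) (2 * j.1 + 1)).1
  have h2 := ed_isSpectrum (h1.and (H47.TW.fd_cl (H50.TW.pf_sf H50.TW.pf_cq) φ)).ed
  convert h2 using 1
  ext n
  rw [br_k]
  refine and_congr_right fun _ => ?_
  constructor
  · rintro ⟨P, R, hR, hs⟩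
    have key1 : ∀ i a, (if (2 * i) % 2 = 0 then ∃ c, [a] = [c] ∧ P ((2 * i) / 2) c
        else ∃ c d, [a] = [c, d] ∧ R ((2 * i) / 2) c d) ↔ P i a := by
      intro i a
      rw [if_pos (by omega), Nat.mul_div_cancel_left i (by norm_num)]
      simp
    have key2 : ∀ i a b, (if (2 * i + 1) % 2 = 0 then ∃ c, [a, b] = [c] ∧ P ((2 * i + 1) / 2) c
        else ∃ c d, [a, b] = [c, d] ∧ R ((2 * i + 1) / 2) c d) ↔ R i a b := by
      intro i a b
      rw [if_neg (by omega), show (2 * i + 1) / 2 = i by omega]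
      simp
    refine ⟨fun k l => if k % 2 = 0 then ∃ c, l = [c] ∧ P (k / 2) c
        else ∃ c d, l = [c, d] ∧ R (k / 2) c d, ?_, ?_⟩
    · intro j
      simp only [key2]
      exact hR j.1 j.2
    · simp only [key1, key2]
      exact hs
  · rintro ⟨E, hj, hs⟩
    exact ⟨fun i a => E (2 * i) [a], fun i a b => E (2 * i + 1) [a, b],
      fun j hjl => hj ⟨j, hjl⟩, hs⟩

end Pool.Agent.H8.DI
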