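import Pool.Agent.H8.DI.Targets
import Pool.Agent.H16.TO.Asm2

/-!
# Two linear orders
-/

set_option autoImplicit false

namespace Pool.Agent.H8.DI

open Pool.Agent.H16.TO Pool.Agent.H69.Sp

theorem specO_eq_specK (l : ℕ) (φ : C2) : specO l φ = specK l (fun _ => Kd.ord) φ := rfl

theorem pf_x2 (h2 : T_Q2) (hCD : T_CD) (hKY : T_KY) (hSU : T_SU) : K_X2 := by
  intro S hS
  obtain ⟨φ, r, hr, -, -, h⟩ := h2 S hS
  obtain ⟨ψ, -, -, g⟩ := specS_eq hCD hKY hSU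
  refine ⟨.and φ ψ, r, hr, fun n hn => ?_⟩
  rw [h n hn, g, specO_eq_specK]

end Pool.Agent.H8.DI
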