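import Pool.Agent.H8.DI.CB
import Pool.Agent.H8.DI.CH
import Pool.Agent.H8.DI.PB
import Pool.Agent.H8.DI.SK
import Pool.Agent.H8.DI.X2
import Pool.Agent.H1.DI.LB
import Pool.Agent.H16.DI.SU
import Pool.Agent.H56.DI.MN
import Pool.Agent.H56.DI.MO
import Pool.Agent.H56.DI.MS
import Pool.Agent.H56.DI.MT
import Pool.Agent.H63.DI.CL
import Pool.Agent.H63.DI.CN
import Pool.Agent.H63.DI.CT
import Pool.Agent.H63.DI.HD
import Pool.Agent.H63.DI.MJ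
import Pool.Agent.H63.DI.XO
import Pool.Agent.H68.DI.MC
import Pool.Agent.H68.DI.ML
import Pool.Agent.H69.DI.DO
import Pool.Agent.H69.DI.TM
import Pool.Agent.H77.DI.OL
import Pool.Agent.H77.DI.PO
import Pool.Agent.H77.DI.RF
import Pool.Agent.H79.DI.DR
import Pool.Agent.H79.DI.Net
import Pool.Agent.H88.DI.DE
import Pool.Agent.H88.DI.DF
import Pool.Agent.H88.DI.ST
import Pool.Agent.H99.DI.RN
import Pool.Agent.H99.DI.XE
import Pool.Agent.H49.PU.EQ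
import Pool.Agent.H8.PL.All
import Pool.Agent.H8.VR.All
import Pool.Agent.H16.TO.AllTwo

/-!
# Special relations: all modules put together
-/

set_option autoImplicit false

namespace Pool.Agent.H8.DI

open Pool.Agent Pool.Agent.H8.PL Pool.Agent.H16.TO

theorem k_lb : K_LB := H1.DI.pf_lb pf_cb

theorem k_st : K_ST :=
  H88.DI.pf_st (H63.DI.pf_cn pf_cb k_lb) (H79.DI.pf_nt H79.DI.pf_nu (H79.DI.pf_nr H79.DI.pf_nu))

theorem k_ol : K_OL := H77.DI.pf_ol pf_ch (H63.DI.pf_ct H63.DI.pf_mj) (H63.DI.pf_cl H63.DI.pf_mj)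

theorem k_mo : K_MO :=
  H56.DI.pf_mo H56.DI.pf_mt (H56.DI.pf_ms H56.DI.pf_mn) H68.DI.pf_mc H68.DI.pf_ml

theorem k_xe : K_XE :=
  H99.DI.pf_xe z_sq (H88.DI.pf_de H88.DI.pf_df) k_st H68.DI.pf_mc H68.DI.pf_ml H56.DI.pf_mn
    H77.DI.pf_po H49.PU.pf_eq

theorem k_xo : K_XO :=
  H63.DI.pf_xo z_sq (H69.DI.pf_do H88.DI.pf_df H16.DI.pf_su) k_ol k_st H68.DI.pf_mc k_mo
    H56.DI.pf_mn H77.DI.pf_po H49.PU.pf_eq

theorem k_x2 : K_X2 := pf_x2 t_q2 H89.TO.pf_cd H3.TW.pf_ky H47.TW.pf_su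

theorem k_hd : K_HD := H63.DI.pf_hd H99.DI.pf_rn H77.DI.pf_rf k_xe k_xo k_x2

theorem k_tm : K_TM := H69.DI.pf_tm H79.DI.pf_dr H8.VR.t_all

end Pool.Agent.H8.DI
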