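import Pool.Agent.H16.TO.Defs2

/-!
# Two-variable logic with counting and special relations: linear orders, forest orders, equivalence
relations
-/

set_option autoImplicit false

namespace Pool.Agent.H8.DI

open Pool.Agent.H16.TO

/-- The kinds of special relations: linear orders, forest orders, equivalence relations. -/
inductive Kd : Type
  | ord : Kd
  | tree : Kd
  | eqv : Kd
deriving DecidableEq

/-- `r` is of the kind `κ`: a strict linear order; the ancestor relation of a forest (a strict
partial order in which the elements below any element are comparable); an equivalence relation. -/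
def IsK {A : Type} (κ : Kd) (r : A → A → Prop) : Prop :=
  match κ with
  | .ord => IsStrictTotalOrder A r
  | .tree => (∀ a, ¬ r a a) ∧ (∀ a b c, r a b → r b c → r a c) ∧
      ∀ a b c, r a c → r b c → a = b ∨ r a b ∨ r b a
  | .eqv => Equivalence r

/-- The sizes of the finite (nonempty) models of `φ` in which every binary relation `R j`, `j < l`, is
of the kind `τ j`. -/
def specK (l : ℕ) (τ : ℕ → Kd) (φ : C2) : Set ℕ :=
  {n | 0 < n ∧ ∃ (P : ℕ → Fin n → Prop) (R : ℕ → Fin n → Fin n → Prop),
    (∀ j < l, IsK (τ j) (R j)) ∧ ∀ s : Bool → Fin n, φ.Sat P R s}

end Pool.Agent.H8.DI
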