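import Pool.Agent.H8.DI.Targets

/-!
# The sizes of the blocks of a cell
-/

set_option autoImplicit false

namespace Pool.Agent.H8.DI

open Pool.Agent.H16.TO Pool.Agent.H8.PL

/-- a matching gives equal numbers -/
theorem ncard_match {V : Type} [Finite V] (p q : V → Prop) (r : V → V → Prop)
    (h1 : ∀ x, p x → ∃! y, q y ∧ r x y) (h2 : ∀ y, q y → ∃! x, p x ∧ r x y) :
    {x | p x}.ncard = {y | q y}.ncard := by
  classical
  have h3 : ∀ x, p x → ∃ y, q y ∧ r x y := fun x hx => (h1 x hx).exists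
  choose f hf using h3
  refine Set.ncard_congr (fun x hx => f x hx) (fun x hx => (hf x hx).1) ?_ ?_
  · intro x x' hx hx' h
    obtain ⟨z, -, hu⟩ := h2 (f x hx) (hf x hx).1
    have e1 := hu x ⟨hx, (hf x hx).2⟩
    have e2 := hu x' ⟨hx', by rw [h]; exact (hf x' hx').2⟩
    rw [e1, e2]
  · intro y hy
    obtain ⟨x, ⟨hx, hr⟩, -⟩ := h2 y hy
    refine ⟨x, hx, ?_⟩
    exact (h1 x hx).unique (hf x hx) ⟨hy, hr⟩

section
variable {V Q : Type} [Finite V] {U : Bool → Bool → Bool → Bool → Q → Prop}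
  {st : V → El Q} {E M : V → V → Prop}

/-- the block of kind `j` and colour `c` has as many items as the own block has sources -/
theorem cb_src (a : CellAx U st E M) (x : V) (j : Fin 4) (hj : j ≠ 0) (c : Bool) :
    {y | E x y ∧ src j (st y) ∧ (st y).c = c}.ncard =
      {y | E x y ∧ (st y).k = j ∧ (st y).c = c}.ncard := by
  refine ncard_match _ _ M ?_ ?_
  · rintro y ⟨h1, h2, h3⟩
    obtain ⟨z, ⟨g1, g2, g3, g4⟩, gu⟩ := a.mat j hj y h2
    refine ⟨z, ⟨⟨a.eqv.trans h1 g1, g3, g4.trans h3⟩, g2⟩, ?_⟩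
    rintro w ⟨⟨k1, k2, k3⟩, k4⟩
    exact gu w ⟨a.eqv.trans (a.eqv.symm h1) k1, k4, k2, k3.trans h3.symm⟩
  · rintro y ⟨h1, h2, h3⟩
    obtain ⟨z, ⟨g1, g2, g3, g4⟩, gu⟩ := a.mat' j hj y h2
    refine ⟨z, ⟨⟨a.eqv.trans h1 (a.eqv.symm g1), g3, g4.trans h3⟩, g2⟩, ?_⟩
    rintro w ⟨⟨k1, k2, k3⟩, k4⟩
    exact gu w ⟨a.eqv.trans (a.eqv.symm k1) h1, k4, k2, k3.trans h3.symm⟩

/-- exactly one item is the first -/
theorem cb_one (a : CellAx U st E M) (x : V) (c : Bool) :
    {y | E x y ∧ (st y).k = 0 ∧ (st y).c = c ∧ (st y).z = false}.ncard + 1 =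
      {y | E x y ∧ (st y).k = 0 ∧ (st y).c = c}.ncard := by
  obtain ⟨z, ⟨h1, h2, h3, h4⟩, hu⟩ := a.one x c
  have e : {y | E x y ∧ (st y).k = 0 ∧ (st y).c = c} =
      insert z {y | E x y ∧ (st y).k = 0 ∧ (st y).c = c ∧ (st y).z = false} := by
    ext y
    constructor
    · rintro ⟨g1, g2, g3⟩
      cases hz : (st y).z with
      | true => exact Or.inl (hu y ⟨g1, g2, g3, hz⟩)
      | false => exact Or.inr ⟨g1, g2, g3, hz⟩
    · rintro (rfl | ⟨g1, g2, g3, -⟩)
      · exact ⟨h1, h2, h3⟩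
      · exact ⟨g1, g2, g3⟩
  rw [e, Set.ncard_insert_of_notMem _ (Set.toFinite _)]
  rintro ⟨-, -, -, h⟩
  rw [h4] at h
  exact absurd h (by decide)

theorem cb_fx (a : CellAx U st E M) (x : V) : (st x).fx = true ↔ al st E x = 1 := by
  have h := cb_one a x false
  unfold al
  constructor
  · intro hx
    rw [← h]
    have e : {y | E x y ∧ (st y).k = 0 ∧ (st y).c = false ∧ (st y).z = false} = ∅ := by
      ext y
      simp only [Set.mem_ofPred_eq, Set.mem_empty_iff_false, iff_false]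
      rintro ⟨g1, g2, g3, g4⟩
      have := a.fx1 y g2 g3 ((a.same x y g1).1 ▸ hx)
      rw [g4] at this
      exact absurd this (by decide)
    rw [e, Set.ncard_empty]
  · intro hx
    by_contra hn
    have hn' : (st x).fx = false := by simpa using hn
    obtain ⟨y, hy⟩ := a.fx0 x hn'
    have : 0 < {y | E x y ∧ (st y).k = 0 ∧ (st y).c = false ∧ (st y).z = false}.ncard :=
      (Set.ncard_pos (Set.toFinite _)).mpr ⟨y, hy⟩
    omega

theorem cb_fy (a : CellAx U st E M) (x : V) : (st x).fy = true ↔ be st E x = 1 := by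
  have h := cb_one a x true
  unfold be
  constructor
  · intro hx
    rw [← h]
    have e : {y | E x y ∧ (st y).k = 0 ∧ (st y).c = true ∧ (st y).z = false} = ∅ := by
      ext y
      simp only [Set.mem_ofPred_eq, Set.mem_empty_iff_false, iff_false]
      rintro ⟨g1, g2, g3, g4⟩
      have := a.fy1 y g2 g3 ((a.same x y g1).2.2.1 ▸ hx)
      rw [g4] at this
      exact absurd this (by decide)
    rw [e, Set.ncard_empty]
  · intro hx
    by_contra hn
    have hn' : (st x).fy = false := by simpa using hn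
    obtain ⟨y, hy⟩ := a.fy0 x hn'
    have : 0 < {y | E x y ∧ (st y).k = 0 ∧ (st y).c = true ∧ (st y).z = false}.ncard :=
      (Set.ncard_pos (Set.toFinite _)).mpr ⟨y, hy⟩
    omega

/-- kind 1, colour false -/
theorem cb_1f (a : CellAx U st E M) (x : V) (hx : (st x).fx = false) :
    {y | E x y ∧ (st y).k = 1 ∧ (st y).c = false}.ncard + 1 = al st E x := by
  rw [← cb_src a x 1 (by decide) false, al, ← cb_one a x false]
  congr 2
  ext y
  simp only [Set.mem_ofPred_eq, src]
  constructor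
  · rintro ⟨g1, ⟨g2, g3, -⟩, g4⟩
    refine ⟨g1, g2, g4, ?_⟩
    by_contra hz
    exact (g3 trivial).2 ⟨g4, by simpa using hz⟩
  · rintro ⟨g1, g2, g3, g4⟩
    refine ⟨g1, ⟨g2, fun _ => ⟨(a.same x y g1).1 ▸ hx, ?_⟩, fun h => absurd h (by decide)⟩, g3⟩
    rintro ⟨-, h⟩
    rw [g4] at h
    exact absurd h (by decide)

/-- kind 1, colour true -/
theorem cb_1t (a : CellAx U st E M) (x : V) (hx : (st x).fx = false) :
    {y | E x y ∧ (st y).k = 1 ∧ (st y).c = true}.ncard = be st E x := by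
  rw [← cb_src a x 1 (by decide) true, be]
  congr 1
  ext y
  simp only [Set.mem_ofPred_eq, src]
  constructor
  · rintro ⟨g1, ⟨g2, -, -⟩, g4⟩
    exact ⟨g1, g2, g4⟩
  · rintro ⟨g1, g2, g3⟩
    refine ⟨g1, ⟨g2, fun _ => ⟨(a.same x y g1).1 ▸ hx, ?_⟩, fun h => absurd h (by decide)⟩, g3⟩
    rintro ⟨h, -⟩
    rw [g3] at h
    exact absurd h (by decide)

/-- kind 2, colour false -/
theorem cb_2f (a : CellAx U st E M) (x : V) (hx : (st x).fy = false) :
    {y | E x y ∧ (st y).k = 2 ∧ (st y).c = false}.ncard = al st E x := by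
  rw [← cb_src a x 2 (by decide) false, al]
  congr 1
  ext y
  simp only [Set.mem_ofPred_eq, src]
  constructor
  · rintro ⟨g1, ⟨g2, -, -⟩, g4⟩
    exact ⟨g1, g2, g4⟩
  · rintro ⟨g1, g2, g3⟩
    refine ⟨g1, ⟨g2, fun h => absurd h (by decide), fun _ => ⟨(a.same x y g1).2.2.1 ▸ hx, ?_⟩⟩, g3⟩
    rintro ⟨h, -⟩
    rw [g3] at h
    exact absurd h (by decide)

/-- kind 2, colour true -/
theorem cb_2t (a : CellAx U st E M) (x : V) (hx : (st x).fy = false) :
    {y | E x y ∧ (st y).k = 2 ∧ (st y).c = true}.ncard + 1 = be st E x := by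
  rw [← cb_src a x 2 (by decide) true, be, ← cb_one a x true]
  congr 2
  ext y
  simp only [Set.mem_ofPred_eq, src]
  constructor
  · rintro ⟨g1, ⟨g2, -, g3⟩, g4⟩
    refine ⟨g1, g2, g4, ?_⟩
    by_contra hz
    exact (g3 trivial).2 ⟨g4, by simpa using hz⟩
  · rintro ⟨g1, g2, g3, g4⟩
    refine ⟨g1, ⟨g2, fun h => absurd h (by decide), fun _ => ⟨(a.same x y g1).2.2.1 ▸ hx, ?_⟩⟩, g3⟩
    rintro ⟨-, h⟩
    rw [g4] at h
    exact absurd h (by decide)

theorem cb_3 (a : CellAx U st E M) (x : V) (c : Bool) :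
    {y | E x y ∧ (st y).k = 3 ∧ (st y).c = c}.ncard =
      {y | E x y ∧ (st y).k = 0 ∧ (st y).c = c}.ncard := by
  rw [← cb_src a x 3 (by decide) c]
  congr 1
  ext y
  simp only [Set.mem_ofPred_eq, src]
  constructor
  · rintro ⟨g1, ⟨g2, -, -⟩, g4⟩
    exact ⟨g1, g2, g4⟩
  · rintro ⟨g1, g2, g3⟩
    exact ⟨g1, ⟨g2, fun h => absurd h (by decide), fun h => absurd h (by decide)⟩, g3⟩

/-- no items of kind 1 in the first column -/
theorem cb_10 (a : CellAx U st E M) (x : V) (hx : (st x).fx = true) (c : Bool) :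
    {y | E x y ∧ (st y).k = 1 ∧ (st y).c = c}.ncard = 0 := by
  rw [← cb_src a x 1 (by decide) c, Set.ncard_eq_zero (Set.toFinite _)]
  ext y
  simp only [Set.mem_ofPred_eq, src, Set.mem_empty_iff_false, iff_false]
  rintro ⟨g1, ⟨-, g3, -⟩, -⟩
  have h := (g3 trivial).1
  rw [← (a.same x y g1).1, hx] at h
  exact absurd h (by decide)

theorem cb_20 (a : CellAx U st E M) (x : V) (hx : (st x).fy = true) (c : Bool) :
    {y | E x y ∧ (st y).k = 2 ∧ (st y).c = c}.ncard = 0 := by
  rw [← cb_src a x 2 (by decide) c, Set.ncard_eq_zero (Set.toFinite _)]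
  ext y
  simp only [Set.mem_ofPred_eq, src, Set.mem_empty_iff_false, iff_false]
  rintro ⟨g1, ⟨-, -, g3⟩, -⟩
  have h := (g3 trivial).1
  rw [← (a.same x y g1).2.2.1, hx] at h
  exact absurd h (by decide)

/-- split by the kind and the colour -/
theorem cb_sum (x : V) : {y | E x y}.ncard =
    ∑ j : Fin 4, ∑ c : Bool, {y | E x y ∧ (st y).k = j ∧ (st y).c = c}.ncard := by
  classical
  have := Fintype.ofFinite V
  have e1 : {y | E x y}.ncard = (Finset.univ.filter fun y => E x y).card := by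
    rw [Set.ncard_eq_toFinset_card']
    congr 1
    ext y
    simp
  have e2 : ∀ (j : Fin 4) (c : Bool), {y | E x y ∧ (st y).k = j ∧ (st y).c = c}.ncard =
      ((Finset.univ.filter fun y => E x y).filter fun y => (((st y).k, (st y).c) : Fin 4 × Bool) =
        (j, c)).card := by
    intro j c
    rw [Set.ncard_eq_toFinset_card']
    congr 1
    ext y
    simp
  rw [e1]
  simp only [e2]
  rw [← Finset.sum_product' (Finset.univ : Finset (Fin 4)) (Finset.univ : Finset Bool)
    (fun j c => ((Finset.univ.filter fun y => E x y).filter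
      fun y => (((st y).k, (st y).c) : Fin 4 × Bool) = (j, c)).card)]
  exact Finset.card_eq_sum_card_fiberwise (f := fun y => (((st y).k, (st y).c) : Fin 4 × Bool))
    (fun y _ => by simp)

end

theorem pf_cb : K_CB := by
  intro V Q _ U st E M a x
  have h0 := cb_one a x false
  have h1 := cb_one a x true
  have e0 : {y | E x y ∧ (st y).k = 0 ∧ (st y).c = false}.ncard = al st E x := rfl
  have e1 : {y | E x y ∧ (st y).k = 0 ∧ (st y).c = true}.ncard = be st E x := rfl
  have p0 : 1 ≤ al st E x := by omega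
  have p1 : 1 ≤ be st E x := by omega
  refine ⟨p0, p1, cb_fx a x, cb_fy a x, fun h => ⟨cb_1f a x h, cb_1t a x h⟩,
    fun h => ⟨cb_2f a x h, cb_2t a x h⟩, ?_⟩
  rw [cb_sum (st := st) x]
  simp only [Fin.sum_univ_four, Fintype.sum_bool]
  rw [cb_3 a x true, cb_3 a x false, e0, e1]
  unfold sz
  have s1 : {y | E x y ∧ (st y).k = 1 ∧ (st y).c = true}.ncard +
      {y | E x y ∧ (st y).k = 1 ∧ (st y).c = false}.ncard =
      if al st E x = 1 then 0 else al st E x - 1 + be st E x := by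
    split_ifs with h
    · rw [cb_10 a x ((cb_fx a x).mpr h), cb_10 a x ((cb_fx a x).mpr h)]
    · have h' : (st x).fx = false := by
        by_contra hn
        exact h ((cb_fx a x).mp (by simpa using hn))
      have := cb_1f a x h'
      rw [cb_1t a x h']
      omega
  have s2 : {y | E x y ∧ (st y).k = 2 ∧ (st y).c = true}.ncard +
      {y | E x y ∧ (st y).k = 2 ∧ (st y).c = false}.ncard =
      if be st E x = 1 then 0 else al st E x + be st E x - 1 := by
    split_ifs with h
    · rw [cb_20 a x ((cb_fy a x).mpr h), cb_20 a x ((cb_fy a x).mpr h)]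
    · have h' : (st x).fy = false := by
        by_contra hn
        exact h ((cb_fy a x).mp (by simpa using hn))
      have := cb_2t a x h'
      rw [cb_2f a x h']
      omega
  rw [s1, s2]
  omega

end Pool.Agent.H8.DI
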