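import Pool.Agent.H8.DI.Defs
import Pool.Agent.H8.PL.Sys

/-!
# Two-variable logic with counting and special relations: auxiliary definitions

A tiling of a rectangle `W × H` is coded by a structure with an equivalence relation `E`, whose classes
are the cells, and a linking relation (an equivalence relation `F` or a linear order). The cell `(x, y)`
has blocks of four kinds: `0` (own), `1` (copy of the left neighbour), `2` (copy of the lower
neighbour), `3` (second copy of `0`). A block has items of two colours: `x + 1` items of colour `false`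
and `y + 1` items of colour `true` in the own block; a copy has the numbers of items of the copied
cell.
-/

set_option autoImplicit false

namespace Pool.Agent.H8.DI

open Pool.Agent.H16.TO Pool.Agent.H8.PL

/-- the state of an element: kind of the block, colour, first item, first column, last column, first
row, last row, tile -/
structure El (Q : Type) : Type where
  k : Fin 4
  c : Bool
  z : Bool
  fx : Bool
  lx : Bool
  fy : Bool
  ly : Bool
  q : Q

instance {Q : Type} [Finite Q] : Finite (El Q) := by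
  refine Finite.of_injective (β := Fin 4 × Bool × Bool × Bool × Bool × Bool × Bool × Q)
    (fun s => (s.k, s.c, s.z, s.fx, s.lx, s.fy, s.ly, s.q)) ?_
  rintro ⟨_, _, _, _, _, _, _, _⟩ ⟨_, _, _, _, _, _, _, _⟩ h
  simpa using h

section
variable {Q : Type}

/-- the same data of the cell -/
def Same (s s' : El Q) : Prop :=
  s.fx = s'.fx ∧ s.lx = s'.lx ∧ s.fy = s'.fy ∧ s.ly = s'.ly ∧ s.q = s'.q

/-- the items of the own block which are copied inside the cell to the block of kind `j` -/
def src (j : Fin 4) (s : El Q) : Prop :=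
  s.k = 0 ∧ (j = 1 → s.fx = false ∧ ¬ (s.c = false ∧ s.z = true)) ∧
    (j = 2 → s.fy = false ∧ ¬ (s.c = true ∧ s.z = true))

/-- the items of the block of kind `i` which are linked to items of kind `j` of the neighbour -/
def lnk (i j : Fin 4) (s : El Q) : Prop :=
  s.k = i ∧ (j = 1 → s.lx = false) ∧ (j = 2 → s.ly = false)

/-- the first item of a block -/
def fst (s : El Q) : Prop := s.c = false ∧ s.z = true

/-- the first item of an own block -/
def head (s : El Q) : Prop := s.k = 0 ∧ fst s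

end

section
variable {V Q : Type}

/-- the axioms of the cells; `M` is the matching of the copies -/
structure CellAx (U : Bool → Bool → Bool → Bool → Q → Prop) (st : V → El Q) (E M : V → V → Prop) :
    Prop where
  eqv : Equivalence E
  same : ∀ x y, E x y → Same (st x) (st y)
  one : ∀ x c, ∃! y, E x y ∧ (st y).k = 0 ∧ (st y).c = c ∧ (st y).z = true
  mat : ∀ j, j ≠ 0 → ∀ x, src j (st x) →
    ∃! y, E x y ∧ M x y ∧ (st y).k = j ∧ (st y).c = (st x).c
  mat' : ∀ j, j ≠ 0 → ∀ y, (st y).k = j →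
    ∃! x, E x y ∧ M x y ∧ src j (st x) ∧ (st x).c = (st y).c
  fx1 : ∀ x, (st x).k = 0 → (st x).c = false → (st x).fx = true → (st x).z = true
  fx0 : ∀ x, (st x).fx = false → ∃ y, E x y ∧ (st y).k = 0 ∧ (st y).c = false ∧ (st y).z = false
  fy1 : ∀ x, (st x).k = 0 → (st x).c = true → (st x).fy = true → (st x).z = true
  fy0 : ∀ x, (st x).fy = false → ∃ y, E x y ∧ (st y).k = 0 ∧ (st y).c = true ∧ (st y).z = false
  un : ∀ x, U (st x).fx (st x).lx (st x).fy (st x).ly (st x).q
  cor : ∃! x, head (st x) ∧ (st x).fx = true ∧ (st x).fy = true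

/-- the axioms of the links, for an equivalence relation `F`; `N` is the matching of the links -/
structure LinkAx (Hh Vv : Q → Q → Prop) (st : V → El Q) (E F N : V → V → Prop) : Prop where
  feq : Equivalence F
  blk : ∀ x y, (st x).k = (st y).k → (E x y ↔ F x y)
  own : ∀ y, ∃ x, F x y ∧ (st x).k = 0
  lin : ∀ j, j = 1 ∨ j = 2 → ∀ x, lnk 0 j (st x) →
    ∃! y, F x y ∧ N x y ∧ (st y).k = j ∧ (st y).c = (st x).c
  lin' : ∀ j, j = 1 ∨ j = 2 → ∀ y, (st y).k = j →
    ∃! x, F x y ∧ N x y ∧ lnk 0 j (st x) ∧ (st x).c = (st y).c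
  ho : ∀ x y, F x y → N x y → (st x).k = 0 → (st y).k = 1 →
    Hh (st x).q (st y).q ∧ (st y).fy = (st x).fy ∧ (st y).ly = (st x).ly
  ve : ∀ x y, F x y → N x y → (st x).k = 0 → (st y).k = 2 →
    Vv (st x).q (st y).q ∧ (st y).fx = (st x).fx ∧ (st y).lx = (st x).lx

/-- the axioms of the links, for a linear order `lt` with the successor relation `S`; `N` and `N'` are
the matchings of the links -/
structure OrdAx (Hh Vv : Q → Q → Prop) (st : V → El Q) (E lt S N N' : V → V → Prop) : Prop where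
  tot : IsStrictTotalOrder V lt
  suc : IsSucc lt S
  bot : ∀ x, (∀ y, ¬ S y x) → head (st x)
  top : ∀ x, (∀ y, ¬ S x y) → (st x).k = 3
  sh : ∀ x y, S x y → head (st y) → (st x).k = 3
  sn : ∀ x y, S x y → ¬ head (st y) → (st x).k ≤ (st y).k ∧
    ((st x).k = (st y).k → E x y ∧ ¬ fst (st y)) ∧ ((st x).k ≠ (st y).k → fst (st y))
  uni : ∀ y y', E y y' → (st y).k = (st y').k → fst (st y) → fst (st y') → y = y'
  up : ∀ x y, E x y → head (st x) → (st y).k = 3 → lt x y
  lin : ∀ j, j = 1 ∨ j = 2 → ∀ x, lnk 0 j (st x) →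
    ∃! y, lt x y ∧ N x y ∧ (st y).k = j ∧ (st y).c = (st x).c
  lin' : ∀ j, j = 1 ∨ j = 2 → ∀ y, (st y).k = j →
    ∃! x, lt x y ∧ N x y ∧ lnk 0 j (st x) ∧ (st x).c = (st y).c
  lio : ∀ j, j = 1 ∨ j = 2 → ∀ y, (st y).k = j →
    ∃! x, lt y x ∧ N' y x ∧ lnk 3 j (st x) ∧ (st x).c = (st y).c
  lio' : ∀ j, j = 1 ∨ j = 2 → ∀ x, lnk 3 j (st x) →
    ∃! y, lt y x ∧ N' y x ∧ (st y).k = j ∧ (st y).c = (st x).c
  ho : ∀ x y, lt x y → N x y → (st x).k = 0 → (st y).k = 1 →
    Hh (st x).q (st y).q ∧ (st y).fy = (st x).fy ∧ (st y).ly = (st x).ly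
  ve : ∀ x y, lt x y → N x y → (st x).k = 0 → (st y).k = 2 →
    Vv (st x).q (st y).q ∧ (st y).fx = (st x).fx ∧ (st y).lx = (st x).lx

/-- chunks: `ch x` is the number of the chunk of `x` -/
structure ChAx (st : V → El Q) (E lt : V → V → Prop) (ch : V → ℕ) : Prop where
  mono : ∀ x y, lt x y → ch x ≤ ch y
  blk : ∀ x y, (st x).k = (st y).k → (E x y ↔ ch x = ch y)
  ex : ∀ x j, j = 0 ∨ j = 3 → ∃ y, ch y = ch x ∧ (st y).k = j ∧ fst (st y)

/-- the number of the items of colour `false` of the own block -/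
noncomputable def al (st : V → El Q) (E : V → V → Prop) (x : V) : ℕ :=
  {y | E x y ∧ (st y).k = 0 ∧ (st y).c = false}.ncard

/-- the number of the items of colour `true` of the own block -/
noncomputable def be (st : V → El Q) (E : V → V → Prop) (x : V) : ℕ :=
  {y | E x y ∧ (st y).k = 0 ∧ (st y).c = true}.ncard

end

/-- the size of a cell -/
def sz (a b : ℕ) : ℕ := 2 * (a + b) + (if a = 1 then 0 else a - 1 + b) + if b = 1 then 0 else a + b - 1

/-- the size of the structure -/
def cnt (W H : ℕ) : ℕ := ∑ x ∈ Finset.range W, ∑ y ∈ Finset.range H, sz (x + 1) (y + 1)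

/-- the size for a square -/
def pol (N : ℕ) : ℕ := 4 * N ^ 3 + N ^ 2 - N

/-- cells with labels `α c, β c ≥ 1`, right neighbours `ρ` and upper neighbours `υ` -/
structure Net {C Q : Type} (U : Bool → Bool → Bool → Bool → Q → Prop) (Hh Vv : Q → Q → Prop)
    (α β : C → ℕ) (lx ly : C → Bool) (q : C → Q) (ρ υ : C → C → Prop) : Prop where
  pos : ∀ c, 1 ≤ α c ∧ 1 ≤ β c
  un : ∀ c, U (decide (α c = 1)) (lx c) (decide (β c = 1)) (ly c) (q c)
  cor : ∃! c, α c = 1 ∧ β c = 1
  r1 : ∀ c d, ρ c d → α d = α c + 1 ∧ β d = β c ∧ lx c = false ∧ ly d = ly c ∧ Hh (q c) (q d)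
  r2 : ∀ c, lx c = false → ∃ d, ρ c d
  r3 : ∀ d, 1 < α d → ∃ c, ρ c d
  r4 : ∀ c d d', ρ c d → ρ c d' → d = d'
  u1 : ∀ c d, υ c d → β d = β c + 1 ∧ α d = α c ∧ ly c = false ∧ lx d = lx c ∧ Vv (q c) (q d)
  u2 : ∀ c, ly c = false → ∃ d, υ c d
  u3 : ∀ d, 1 < β d → ∃ c, υ c d
  u4 : ∀ c d d', υ c d → υ c d' → d = d'

/-! ### the model -/

/-- the number of the items of colour `c` of the block of kind `k` of the cell `(x, y)` -/
def bl (x y : ℕ) (k : Fin 4) (c : Bool) : ℕ :=
  if k = 1 then (if x = 0 then 0 else if c then y + 1 else x)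
  else if k = 2 then (if y = 0 then 0 else if c then y else x + 1)
  else if c then y + 1 else x + 1

/-- the elements: column, row, kind, colour, number -/
structure It : Type where
  x : ℕ
  y : ℕ
  k : Fin 4
  c : Bool
  i : ℕ

/-- the universe of the model -/
def Mo (W H : ℕ) : Type := {v : It // v.x < W ∧ v.y < H ∧ v.i < bl v.x v.y v.k v.c}

section
variable {W H : ℕ} {Q : Type}

/-- the column of the chunk -/
def cx (v : Mo W H) : ℕ := if v.1.k = 1 then v.1.x - 1 else v.1.x

/-- the row of the chunk -/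
def cy (v : Mo W H) : ℕ := if v.1.k = 2 then v.1.y - 1 else v.1.y

/-- the states -/
def stM (t : ℕ → ℕ → Q) (v : Mo W H) : El Q where
  k := v.1.k
  c := v.1.c
  z := decide (v.1.i = 0)
  fx := decide (v.1.x = 0)
  lx := decide (v.1.x + 1 = W)
  fy := decide (v.1.y = 0)
  ly := decide (v.1.y + 1 = H)
  q := t v.1.x v.1.y

/-- the same cell -/
def eM (v w : Mo W H) : Prop := v.1.x = w.1.x ∧ v.1.y = w.1.y

/-- the same chunk -/
def fM (v w : Mo W H) : Prop := cx v = cx w ∧ cy v = cy w

/-- the matching inside of the cells -/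
def mM (v w : Mo W H) : Prop :=
  v.1.k = 0 ∧ v.1.c = w.1.c ∧
    v.1.i = w.1.i + if (w.1.k = 1 ∧ w.1.c = false) ∨ (w.1.k = 2 ∧ w.1.c = true) then 1 else 0

/-- the matching inside of the chunks -/
def nM (v w : Mo W H) : Prop := fM v w ∧ v.1.c = w.1.c ∧ v.1.i = w.1.i

/-- the number of the colour -/
def cn (c : Bool) : ℕ := if c then 1 else 0

/-- the linear order: row and column of the chunk, kind, colour, number -/
def lM (v w : Mo W H) : Prop :=
  cy v < cy w ∨ (cy v = cy w ∧ (cx v < cx w ∨ (cx v = cx w ∧ (v.1.k < w.1.k ∨ (v.1.k = w.1.k ∧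
    (cn v.1.c < cn w.1.c ∨ (v.1.c = w.1.c ∧ v.1.i < w.1.i)))))))

/-- the successor relation -/
def sM (v w : Mo W H) : Prop := lM v w ∧ ∀ u, ¬ (lM v u ∧ lM u w)

end

/-! ### definability -/

/-- conditions for pairs -/
abbrev Pr2 (St : Type) (m : ℕ) : Type := St → St → (Fin m → Prop) → (Fin m → Prop) → Prop → Prop

/-- the condition `G` for the pair `(x, y)` -/
def Pr2.ev {V St : Type} {m : ℕ} (G : Pr2 St m) (st : V → St) (R : ℕ → V → V → Prop) (x y : V) :
    Prop :=
  G (st x) (st y) (fun i => R i x y) (fun i => R i y x) (x = y)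

/-- exactly one, at least one, at most one -/
inductive Md : Type
  | one : Md
  | ex : Md
  | am : Md

/-- the number of the elements which satisfy `p` -/
def Md.Holds {V : Type} (d : Md) (p : V → Prop) : Prop :=
  match d with
  | .one => ∃! y, p y
  | .ex => ∃ y, p y
  | .am => ∀ y y', p y → p y' → y = y'

end Pool.Agent.H8.DI
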