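import Pool.Agent.H8.DI.Sys
import Pool.Agent.H8.PU.Targets

/-!
# Two-variable logic with counting and special relations: targets

For two or more special relations (linear orders, forest orders, equivalence relations) two-variable
logic with counting carries the whole question whether complements of spectra are spectra; for at most
one special relation the complements are spectra.
-/

set_option autoImplicit false

namespace Pool.Agent.H8.DI

open Pool.Agent.H69.Sp Pool.Agent.H69.Mt Pool.Agent.H16.TO Pool.Agent.H8.PL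

/-! ### A: nets -/

/-- the labels are unique -/
def K_NU : Prop := ∀ (C Q : Type) [Finite C] (U : Bool → Bool → Bool → Bool → Q → Prop)
  (Hh Vv : Q → Q → Prop) (α β : C → ℕ) (lx ly : C → Bool) (q : C → Q) (ρ υ : C → C → Prop),
  Net U Hh Vv α β lx ly q ρ υ → ∀ c d, α c = α d → β c = β d → c = d

/-- the labels form a rectangle, `lx` and `ly` are the last column and the last row -/
def K_NR : Prop := ∀ (C Q : Type) [Finite C] (U : Bool → Bool → Bool → Bool → Q → Prop)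
  (Hh Vv : Q → Q → Prop) (α β : C → ℕ) (lx ly : C → Bool) (q : C → Q) (ρ υ : C → C → Prop),
  Net U Hh Vv α β lx ly q ρ υ → ∃ W H, 0 < W ∧ 0 < H ∧
    (∀ c, α c ≤ W ∧ β c ≤ H ∧ (lx c = true ↔ α c = W) ∧ (ly c = true ↔ β c = H)) ∧
    ∀ a b, 1 ≤ a → a ≤ W → 1 ≤ b → b ≤ H → ∃ c, α c = a ∧ β c = b

/-- a net is a tiling -/
def K_NT : Prop := ∀ (C Q : Type) [Finite C] (U : Bool → Bool → Bool → Bool → Q → Prop)
  (Hh Vv : Q → Q → Prop) (α β : C → ℕ) (lx ly : C → Bool) (q : C → Q) (ρ υ : C → C → Prop),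
  Net U Hh Vv α β lx ly q ρ υ → ∃ W H, 0 < W ∧ 0 < H ∧ (∃ t, GridF U Hh Vv W H t) ∧
    ∀ g : ℕ → ℕ → ℕ, ∑ᶠ c, g (α c) (β c) =
      ∑ x ∈ Finset.range W, ∑ y ∈ Finset.range H, g (x + 1) (y + 1)

/-! ### B: from structures to nets -/

/-- the sizes of the blocks of a cell -/
def K_CB : Prop := ∀ (V Q : Type) [Finite V] (U : Bool → Bool → Bool → Bool → Q → Prop)
  (st : V → El Q) (E M : V → V → Prop), CellAx U st E M → ∀ x,
    1 ≤ al st E x ∧ 1 ≤ be st E x ∧ ((st x).fx = true ↔ al st E x = 1) ∧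
    ((st x).fy = true ↔ be st E x = 1) ∧
    ((st x).fx = false → {y | E x y ∧ (st y).k = 1 ∧ (st y).c = false}.ncard + 1 = al st E x ∧
      {y | E x y ∧ (st y).k = 1 ∧ (st y).c = true}.ncard = be st E x) ∧
    ((st x).fy = false → {y | E x y ∧ (st y).k = 2 ∧ (st y).c = false}.ncard = al st E x ∧
      {y | E x y ∧ (st y).k = 2 ∧ (st y).c = true}.ncard + 1 = be st E x) ∧
    {y | E x y}.ncard = sz (al st E x) (be st E x)

/-- the labels of linked cells -/
def K_LB : Prop := ∀ (V Q : Type) [Finite V] (U : Bool → Bool → Bool → Bool → Q → Prop)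
  (Hh Vv : Q → Q → Prop) (st : V → El Q) (E F M N : V → V → Prop), CellAx U st E M →
  LinkAx Hh Vv st E F N → ∀ x y, (st x).k = 0 → F x y →
    ((st y).k = 1 → al st E y = al st E x + 1 ∧ be st E y = be st E x ∧ (st x).lx = false ∧
      (st y).ly = (st x).ly ∧ Hh (st x).q (st y).q) ∧
    ((st y).k = 2 → be st E y = be st E x + 1 ∧ al st E y = al st E x ∧ (st x).ly = false ∧
      (st y).lx = (st x).lx ∧ Vv (st x).q (st y).q)

/-- the net of the cells -/
def K_CN : Prop := ∀ (V Q : Type) [Finite V] (U : Bool → Bool → Bool → Bool → Q → Prop)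
  (Hh Vv : Q → Q → Prop) (st : V → El Q) (E F M N : V → V → Prop), CellAx U st E M →
  LinkAx Hh Vv st E F N → ∃ (C : Type) (_ : Finite C) (α β : C → ℕ) (lx ly : C → Bool) (q : C → Q)
    (ρ υ : C → C → Prop), Net U Hh Vv α β lx ly q ρ υ ∧ Nat.card V = ∑ᶠ c, sz (α c) (β c)

/-- from structures to tilings -/
def K_ST : Prop := ∀ (V Q : Type) [Finite V] (U : Bool → Bool → Bool → Bool → Q → Prop)
  (Hh Vv : Q → Q → Prop) (st : V → El Q) (E F M N : V → V → Prop), CellAx U st E M →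
  LinkAx Hh Vv st E F N → ∃ W H, 0 < W ∧ 0 < H ∧ (∃ t, GridF U Hh Vv W H t) ∧ Nat.card V = cnt W H

/-! ### C: linear orders -/

/-- an injective map which does not lower a rank preserves it -/
def K_MJ : Prop := ∀ (X : Type) [Finite X] (g : X → X) (f : X → ℕ), Function.Injective g →
  (∀ x, f x ≤ f (g x)) → ∀ x, f (g x) = f x

/-- the chunks -/
def K_CH : Prop := ∀ (V Q : Type) [Finite V] (U : Bool → Bool → Bool → Bool → Q → Prop)
  (Hh Vv : Q → Q → Prop) (st : V → El Q) (E lt M S N N' : V → V → Prop), CellAx U st E M →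
  OrdAx Hh Vv st E lt S N N' → ∃ ch : V → ℕ, ChAx st E lt ch

/-- the two copies of an own block are in the same chunk -/
def K_CT : Prop := ∀ (V Q : Type) [Finite V] (U : Bool → Bool → Bool → Bool → Q → Prop)
  (Hh Vv : Q → Q → Prop) (st : V → El Q) (E lt M S N N' : V → V → Prop) (ch : V → ℕ),
  CellAx U st E M → OrdAx Hh Vv st E lt S N N' → ChAx st E lt ch →
    ∀ x y, E x y → (st x).k = 0 → (st y).k = 3 → ch x = ch y

/-- matchings stay inside of the chunks -/
def K_CL : Prop := ∀ (V Q : Type) [Finite V] (U : Bool → Bool → Bool → Bool → Q → Prop)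
  (Hh Vv : Q → Q → Prop) (st : V → El Q) (E lt M S N N' : V → V → Prop) (ch : V → ℕ),
  CellAx U st E M → OrdAx Hh Vv st E lt S N N' → ChAx st E lt ch →
    (∀ x y, E x y → (st x).k = 0 → (st y).k = 3 → ch x = ch y) →
    ∀ j, j = 1 ∨ j = 2 → ∀ x y, lnk 0 j (st x) → (st y).k = j → (st x).c = (st y).c → lt x y →
      N x y → ch x = ch y

/-- from linear orders to equivalence relations -/
def K_OL : Prop := ∀ (V Q : Type) [Finite V] (U : Bool → Bool → Bool → Bool → Q → Prop)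
  (Hh Vv : Q → Q → Prop) (st : V → El Q) (E lt M S N N' : V → V → Prop), CellAx U st E M →
  OrdAx Hh Vv st E lt S N N' → ∃ F N'' : V → V → Prop, LinkAx Hh Vv st E F N''

/-! ### D: the model -/

/-- the cells of the model -/
def K_MC : Prop := ∀ (Q : Type) (U : Bool → Bool → Bool → Bool → Q → Prop) (Hh Vv : Q → Q → Prop)
  (W H : ℕ) (t : ℕ → ℕ → Q), 0 < W → 0 < H → GridF U Hh Vv W H t →
    CellAx (V := Mo W H) U (stM t) eM mM

/-- the links of the model -/
def K_ML : Prop := ∀ (Q : Type) (U : Bool → Bool → Bool → Bool → Q → Prop) (Hh Vv : Q → Q → Prop)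
  (W H : ℕ) (t : ℕ → ℕ → Q), 0 < W → 0 < H → GridF U Hh Vv W H t →
    LinkAx (V := Mo W H) Hh Vv (stM t) eM fM nM

/-- the linear order of the model -/
def K_MT : Prop := ∀ W H : ℕ, IsStrictTotalOrder (Mo W H) lM ∧ IsSucc (lM (W := W) (H := H)) sM

/-- the successor relation of the model -/
def K_MS : Prop := ∀ (Q : Type) (W H : ℕ) (t : ℕ → ℕ → Q), 0 < W → 0 < H →
  (∀ x : Mo W H, (∀ y, ¬ sM y x) → head (stM t x)) ∧
  (∀ x : Mo W H, (∀ y, ¬ sM x y) → (stM t x).k = 3) ∧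
  (∀ x y : Mo W H, sM x y → head (stM t y) → (stM t x).k = 3) ∧
  ∀ x y : Mo W H, sM x y → ¬ head (stM t y) → (stM t x).k ≤ (stM t y).k ∧
    ((stM t x).k = (stM t y).k → eM x y ∧ ¬ fst (stM t y)) ∧
    ((stM t x).k ≠ (stM t y).k → fst (stM t y))

/-- the linear order satisfies the axioms -/
def K_MO : Prop := ∀ (Q : Type) (U : Bool → Bool → Bool → Bool → Q → Prop) (Hh Vv : Q → Q → Prop)
  (W H : ℕ) (t : ℕ → ℕ → Q), 0 < W → 0 < H → GridF U Hh Vv W H t →
    OrdAx (V := Mo W H) Hh Vv (stM t) eM lM sM nM nM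

/-- the size of the model -/
def K_MN : Prop := ∀ W H : ℕ, Finite (Mo W H) ∧ Nat.card (Mo W H) = cnt W H

/-- the size for a square -/
def K_PO : Prop := (∀ N, cnt N N + N = 4 * N ^ 3 + N ^ 2) ∧ (∀ N, cnt N N = pol N) ∧
  (∀ N, N ≤ pol N) ∧ ∀ M N, pol M = pol N → M = N

/-! ### E: definability -/

/-- conditions for pairs and counting conditions are definable -/
def K_DF : Prop := ∀ (St : Type) [Finite St] (m : ℕ) (χ : Pr2 St m) (ι : Type) [Finite ι]
  (σ : ι → St → Prop) (G : ι → Pr2 St m) (d : ι → Md), ∃ φ : C2,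
    ∀ (V : Type) [Finite V] (R : ℕ → V → V → Prop),
      (∃ P : ℕ → V → Prop, ∀ s : Bool → V, φ.Sat P R s) ↔
        ∃ st : V → St, (∀ x y, χ.ev st R x y) ∧
          ∀ i x, σ i (st x) → (d i).Holds (fun y => (G i).ev st R x y)

/-- successor relations by counting -/
def K_SU : Prop := ∀ (V : Type) [Finite V] (lt S : V → V → Prop), IsStrictTotalOrder V lt →
  (∀ x y, S x y → lt x y) → (∀ x x' y, S x y → S x' y → x = x') →
  (∀ x, (∃ y, lt x y) → ∃ y, S x y) → IsSucc lt S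

/-- the axioms for two equivalence relations are definable -/
def K_DE : Prop := ∀ (Q : Type) [Finite Q] (U : Bool → Bool → Bool → Bool → Q → Prop)
  (Hh Vv : Q → Q → Prop), ∃ φ : C2, ∀ (V : Type) [Finite V] [Nonempty V] (E F : V → V → Prop),
    Equivalence E → Equivalence F →
      ((∃ (P : ℕ → V → Prop) (R : ℕ → V → V → Prop), R 0 = E ∧ R 1 = F ∧ ∀ s, φ.Sat P R s) ↔
        ∃ (st : V → El Q) (M N : V → V → Prop), CellAx U st E M ∧ LinkAx Hh Vv st E F N)

/-- the axioms for a linear order and an equivalence relation are definable -/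
def K_DO : Prop := ∀ (Q : Type) [Finite Q] (U : Bool → Bool → Bool → Bool → Q → Prop)
  (Hh Vv : Q → Q → Prop), ∃ φ : C2, ∀ (V : Type) [Finite V] [Nonempty V] (lt E : V → V → Prop),
    IsStrictTotalOrder V lt → Equivalence E →
      ((∃ (P : ℕ → V → Prop) (R : ℕ → V → V → Prop), R 0 = lt ∧ R 1 = E ∧ ∀ s, φ.Sat P R s) ↔
        ∃ (st : V → El Q) (M S N N' : V → V → Prop), CellAx U st E M ∧
          OrdAx Hh Vv st E lt S N N')

/-- renaming of the binary relations -/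
def K_RN : Prop := ∀ g : ℕ → ℕ, Function.Injective g → ∀ l l' : ℕ, (∀ j, g j < l' ↔ j < l) →
  ∀ φ : C2, ∃ φ' : C2, ∀ τ : ℕ → Kd, specK l' τ φ' = specK l (fun j => τ (g j)) φ

/-- forest orders which are linear orders -/
def K_RF : Prop := ∀ (l : ℕ) (τ : ℕ → Kd) (φ : C2), ∃ φ' : C2,
  specK l τ φ' = specK l (fun j => if τ j = Kd.tree then Kd.ord else τ j) φ

/-! ### F: the theorems -/

/-- the spectra with special relations are spectra -/
def K_SK : Prop := ∀ (l : ℕ) (τ : ℕ → Kd) (φ : C2), IsSpectrum (specK l τ φ)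

/-- pull-back -/
def K_PB : Prop := ∀ X : Set ℕ, IsSpectrum X → ∀ r : ℕ, 0 < r →
  IsSpectrum {n | 0 < n ∧ pol (n ^ r) ∈ X}

/-- two equivalence relations -/
def K_XE : Prop := ∀ S, IsSpectrum S → ∃ (φ : C2) (r : ℕ), 0 < r ∧ ∀ n, 0 < n →
  (n ∈ S ↔ pol (n ^ r) ∈ specK 2 (fun _ => Kd.eqv) φ)

/-- a linear order and an equivalence relation -/
def K_XO : Prop := ∀ S, IsSpectrum S → ∃ (φ : C2) (r : ℕ), 0 < r ∧ ∀ n, 0 < n →
  (n ∈ S ↔ pol (n ^ r) ∈ specK 2 (fun j => if j = 0 then Kd.ord else Kd.eqv) φ)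

/-- two linear orders -/
def K_X2 : Prop := ∀ S, IsSpectrum S → ∃ (φ : C2) (r : ℕ), 0 < r ∧ ∀ n, 0 < n →
  (n ∈ S ↔ 2 * r * n ^ r ∈ specK 2 (fun _ => Kd.ord) φ)

/-- two or more special relations -/
def K_HD : Prop := ∀ (l : ℕ) (τ : ℕ → Kd), 2 ≤ l → ∀ S, IsSpectrum S → ∃ (φ : C2) (r : ℕ), 0 < r ∧
  ((∀ n, 0 < n → (n ∈ S ↔ 2 * r * n ^ r ∈ specK l τ φ)) ∨
    ∀ n, 0 < n → (n ∈ S ↔ pol (n ^ r) ∈ specK l τ φ))

/-- every finite forest order has a document order -/
def K_DR : Prop := ∀ (A : Type) [Finite A] (r : A → A → Prop), IsK Kd.tree r →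
  ∃ t : A → A → Prop, IsStrictTotalOrder A t ∧ (∀ a b, r a b → t a b) ∧
    ∀ a b c, r a c → t a b → t b c → r a b

/-- at most one special relation -/
def K_TM : Prop := ∀ (l : ℕ) (τ : ℕ → Kd) (φ : C2), l ≤ 1 → IsSpectrum (posCompl (specK l τ φ))

/-- the dichotomy -/
def K_DI : Prop := ∀ (l : ℕ) (τ : ℕ → Kd),
  (l ≤ 1 → ∀ φ : C2, IsSpectrum (posCompl (specK l τ φ))) ∧
  (2 ≤ l → (∀ S, IsSpectrum S → ∃ (φ : C2) (p : Polynomial ℤ), ∀ n : ℕ, 0 < n →
      ∃ m : ℕ, (m : ℤ) = p.eval (n : ℤ) ∧ n ≤ m ∧ (n ∈ S ↔ m ∈ specK l τ φ)) ∧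
    ((∀ S, IsSpectrum S → IsSpectrum (posCompl S)) ↔
      ∀ φ : C2, IsSpectrum (posCompl (specK l τ φ))))

end Pool.Agent.H8.DI
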